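import Mathlib

/-!
# Points of projective space, their ideals, and general position
-/

set_option autoImplicit false

namespace Pool.Agent.H350R3.MG

open MvPolynomial
open scoped LinearAlgebra.Projectivization

/-- The homogeneous prime ideal of a point of `ℙⁿ`: all the polynomials in `x₀, …, xₙ` which
vanish on the line of `ℂⁿ⁺¹` given by the point. -/
noncomputable def primeIdeal {n : ℕ} (p : ℙ ℂ (Fin (n + 1) → ℂ)) :
    Ideal (MvPolynomial (Fin (n + 1)) ℂ) where
  carrier := {F | ∀ w ∈ p.submodule, eval w F = 0}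
  add_mem' := by
    intro F G hF hG w hw
    rw [map_add, hF w hw, hG w hw, add_zero]
  zero_mem' := by
    intro w _
    exact map_zero _
  smul_mem' := by
    intro c F hF w hw
    rw [smul_eq_mul, map_mul, hF w hw, mul_zero]

/-- Zariski open subsets of `(ℙⁿ)^k`: those which are defined, in terms of arbitrary homogeneous
coordinates of the points, by the condition that some polynomial of a given set does not vanish. -/
def IsZariskiOpen {n k : ℕ} (U : Set (Fin k → ℙ ℂ (Fin (n + 1) → ℂ))) : Prop :=
  ∃ S : Set (MvPolynomial (Fin k × Fin (n + 1)) ℂ),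
    ∀ (v : Fin k → Fin (n + 1) → ℂ) (hv : ∀ i, v i ≠ 0),
      ((fun i => Projectivization.mk ℂ (v i) (hv i)) ∈ U ↔
        ∃ f ∈ S, eval (fun x : Fin k × Fin (n + 1) => v x.1 x.2) f ≠ 0)

/-- A property of `k`-tuples of points of `ℙⁿ` holds for general points if it holds on a nonempty
Zariski open subset of `(ℙⁿ)^k`. -/
def Generally {n k : ℕ} (Q : (Fin k → ℙ ℂ (Fin (n + 1) → ℂ)) → Prop) : Prop :=
  ∃ U : Set (Fin k → ℙ ℂ (Fin (n + 1) → ℂ)), IsZariskiOpen U ∧ U.Nonempty ∧ ∀ P ∈ U, Q P

end Pool.Agent.H350R3.MG
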